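import Mathlib

/-!
Linear dimension of primitive actions of symmetric groups.

For even `n ≥ 6` the primitive action of `S_n` on the partitions of `{1, …, n}` into two halves has
linear dimension at most `n - 1` over the field with two elements: the partition `{A, B}` is sent to
the class of the indicator function of `A` modulo the constant functions.
-/

set_option linter.style.haveILetI false

namespace Pool.Agent.Results.MP_bfdf54_al.HalvesCharTwo

open Equiv MulAction
open scoped Pointwise

/-- The `F`-linear dimension of an action of `G` on `Ω`: the least dimension of a finite-dimensional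
representation `(V, ρ)` of `G` over `F` that has an injective `G`-equivariant map `Ω → V`. -/
noncomputable def lindim (F : Type) [Field F] (G : Type) [Group G] (Ω : Type) [MulAction G Ω] : ℕ :=
  sInf {d | ∃ (V : Type) (_ : AddCommGroup V) (_ : Module F V) (_ : Module.Finite F V)
    (ρ : Representation F G V) (φ : Ω → V), Function.Injective φ ∧
    (∀ g ω, φ (g • ω) = ρ g (φ ω)) ∧ Module.finrank F V = d}

/-- The action of `S_n` on `Ω` is equivalent to the natural action on the `k`-element subsets. -/
def IsSubsetAction (n : ℕ) (Ω : Type) [MulAction (Perm (Fin n)) Ω] (k : ℕ) : Prop :=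
  ∃ f : Ω ≃ {s : Finset (Fin n) // s.card = k},
    ∀ (g : Perm (Fin n)) (ω : Ω), ((f (g • ω)) : Finset (Fin n)) =
      ((f ω) : Finset (Fin n)).map g.toEmbedding

variable {n : ℕ}

/-- constant functions -/
def cst (n : ℕ) : Submodule (ZMod 2) (Fin n → ZMod 2) :=
  Submodule.span (ZMod 2) {(1 : Fin n → ZMod 2)}

/-- functions modulo constants -/
abbrev W (n : ℕ) : Type := (Fin n → ZMod 2) ⧸ cst n

/-- class of a function -/
def cl (f : Fin n → ZMod 2) : W n := Submodule.Quotient.mk f

/-- the permutation operator -/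
def L (g : Perm (Fin n)) : (Fin n → ZMod 2) →ₗ[ZMod 2] (Fin n → ZMod 2) :=
  LinearMap.funLeft (ZMod 2) (ZMod 2) (g⁻¹ : Perm (Fin n))

theorem L_apply (g : Perm (Fin n)) (f : Fin n → ZMod 2) (x : Fin n) : L g f x = f (g⁻¹ x) := rfl

theorem cst_le (g : Perm (Fin n)) : cst n ≤ (cst n).comap (L g) := by
  unfold cst
  rw [Submodule.span_le]
  rintro f hf
  rw [Set.mem_singleton_iff] at hf
  subst hf
  have : L g (1 : Fin n → ZMod 2) = 1 := by
    funext x
    rfl
  rw [SetLike.mem_coe, Submodule.mem_comap, this]
  exact Submodule.mem_span_singleton_self _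

/-- the representation on functions modulo constants -/
def rep (n : ℕ) : Representation (ZMod 2) (Perm (Fin n)) (W n) where
  toFun g := (cst n).mapQ (cst n) (L g) (cst_le g)
  map_one' := by
    apply LinearMap.ext
    intro w
    obtain ⟨f, rfl⟩ := Submodule.Quotient.mk_surjective _ w
    rw [Submodule.mapQ_apply]
    rfl
  map_mul' g h := by
    apply LinearMap.ext
    intro w
    obtain ⟨f, rfl⟩ := Submodule.Quotient.mk_surjective _ w
    rw [Module.End.mul_apply, Submodule.mapQ_apply, Submodule.mapQ_apply, Submodule.mapQ_apply]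
    congr 1

theorem rep_cl (g : Perm (Fin n)) (f : Fin n → ZMod 2) : rep n g (cl f) = cl (L g f) := rfl

instance : MulAction (Perm (Fin n)) (W n) where
  smul g w := rep n g w
  one_smul w := by
    change rep n 1 w = w
    rw [map_one]
    rfl
  mul_smul g h w := by
    change rep n (g * h) w = rep n g (rep n h w)
    rw [map_mul]
    rfl

theorem smul_def (g : Perm (Fin n)) (w : W n) : g • w = rep n g w := rfl

/-- indicator function -/
def ind (S : Finset (Fin n)) (x : Fin n) : ZMod 2 := if x ∈ S then 1 else 0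

/-- the partition into `S` and its complement -/
def P (S : Finset (Fin n)) : W n := cl (ind S)

theorem smul_P (g : Perm (Fin n)) (S : Finset (Fin n)) : g • P S = P (S.map g.toEmbedding) := by
  rw [smul_def, P, rep_cl, P]
  congr 1
  funext x
  rw [L_apply]
  unfold ind
  congr 1
  apply propext
  rw [Finset.mem_map_equiv]
  rfl

theorem P_compl (S : Finset (Fin n)) : P Sᶜ = P S := by
  unfold P cl
  rw [Submodule.Quotient.eq]
  have : ind Sᶜ - ind S = (1 : Fin n → ZMod 2) := by
    funext x
    by_cases h : x ∈ S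
    · simp only [ind, Pi.sub_apply, Finset.mem_compl, h, not_true_eq_false, if_false, if_true,
        Pi.one_apply]
      decide
    · simp [ind, h]
  rw [this]
  exact Submodule.mem_span_singleton_self _

theorem P_eq (S T : Finset (Fin n)) (h : P S = P T) : S = T ∨ S = Tᶜ := by
  unfold P cl at h
  rw [Submodule.Quotient.eq] at h
  unfold cst at h
  rw [Submodule.mem_span_singleton] at h
  obtain ⟨c, hc⟩ := h
  have hc2 : ∀ c : ZMod 2, c = 0 ∨ c = 1 := by decide
  rcases hc2 c with rfl | rfl
  · left
    ext x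
    have h1 := congrFun hc x
    simp only [zero_smul, Pi.zero_apply, Pi.sub_apply, ind] at h1
    by_cases hS : x ∈ S <;> by_cases hT : x ∈ T <;> simp [hS, hT] at h1 ⊢
  · right
    ext x
    have h1 := congrFun hc x
    simp only [one_smul, Pi.one_apply, Pi.sub_apply, ind] at h1
    by_cases hS : x ∈ S <;> by_cases hT : x ∈ T <;> simp [hS, hT] at h1 ⊢

theorem exists_perm (S T : Finset (Fin n)) (h : S.card = T.card) :
    ∃ g : Perm (Fin n), S.map g.toEmbedding = T := by
  classical
  let e : {x // x ∈ S} ≃ {x // x ∈ T} := Finset.equivOfCardEq h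
  refine ⟨e.extendSubtype, ?_⟩
  apply Finset.eq_of_subset_of_card_le
  · intro y hy
    rw [Finset.mem_map] at hy
    obtain ⟨x, hx, rfl⟩ := hy
    exact e.extendSubtype_mem x hx
  · rw [Finset.card_map, h]

/-- the set of points: partitions into two parts of size `m` -/
def Om (n m : ℕ) : SubMulAction (Perm (Fin n)) (W n) where
  carrier := {w | ∃ S : Finset (Fin n), S.card = m ∧ w = P S}
  smul_mem' := by
    rintro g w ⟨S, hS, rfl⟩
    exact ⟨S.map g.toEmbedding, by rw [Finset.card_map, hS], smul_P g S⟩

theorem swap_map_of_mem (S : Finset (Fin n)) (a b : Fin n) (h : a ∈ S ↔ b ∈ S) :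
    S.map (swap a b).toEmbedding = S := by
  ext x
  rw [Finset.mem_map_equiv, Equiv.symm_swap]
  by_cases hxa : x = a
  · subst hxa
    rw [swap_apply_left]
    exact h.symm
  · by_cases hxb : x = b
    · subst hxb
      rw [swap_apply_right]
      exact h
    · rw [swap_apply_of_ne_of_ne hxa hxb]

theorem pretransitive (m : ℕ) : IsPretransitive (Perm (Fin n)) (Om n m) := by
  refine ⟨?_⟩
  rintro ⟨w, S, hS, rfl⟩ ⟨w', T, hT, rfl⟩
  obtain ⟨g, hg⟩ := exists_perm S T (hS.trans hT.symm)
  refine ⟨g, ?_⟩
  apply Subtype.ext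
  rw [SubMulAction.val_smul]
  change g • P S = P T
  rw [smul_P, hg]

theorem preprimitive (m : ℕ) (hn : n = 2 * m) :
    IsPreprimitive (Perm (Fin n)) (Om n m) := by
  haveI := pretransitive (n := n) m
  refine ⟨?_⟩
  intro B hB
  by_cases hsub : B.Subsingleton
  · exact Or.inl hsub
  right
  rw [Set.not_subsingleton_iff] at hsub
  obtain ⟨⟨w, T, hT, rfl⟩, hwB, ⟨w', S, hS, rfl⟩, hwB', hne⟩ := hsub
  have hne' : P T ≠ P S := fun h => hne (Subtype.ext h)
  have hST : S ≠ T := by rintro rfl; exact hne' rfl
  have hSTc : S ≠ Tᶜ := by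
    rintro rfl
    exact hne' (P_compl T).symm
  have hTc : (Tᶜ).card = m := by
    rw [Finset.card_compl, Fintype.card_fin, hT, hn]
    omega
  -- a point of `S` in `T` and a point of `S` outside `T`
  obtain ⟨x, hxS, hxT⟩ : ∃ x, x ∈ S ∧ x ∈ T := by
    by_contra hcon
    push Not at hcon
    apply hSTc
    apply Finset.eq_of_subset_of_card_le
    · intro z hz
      rw [Finset.mem_compl]
      exact hcon z hz
    · rw [hTc, hS]
  obtain ⟨y, hyS, hyT⟩ : ∃ y, y ∈ S ∧ y ∉ T := by
    by_contra hcon
    push Not at hcon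
    apply hST
    exact Finset.eq_of_subset_of_card_le hcon (by rw [hT, hS])
  -- elements fixing a point of the block fix the block
  have hfix : ∀ (g : Perm (Fin n)) (p : Om n m), p ∈ B → g • p ∈ B → g • B = B := by
    intro g p hp hgp
    by_contra hcon
    have hdis := (isBlock_iff_smul_eq_or_disjoint.1 hB) g
    rcases hdis with h | h
    · exact hcon h
    · exact Set.disjoint_left.1 h (Set.smul_mem_smul_set hp) hgp
  have hTfix : ∀ a b : Fin n, (a ∈ T ↔ b ∈ T) → swap a b • B = B := by
    intro a b hab
    apply hfix _ ⟨P T, T, hT, rfl⟩ hwB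
    have : swap a b • (⟨P T, T, hT, rfl⟩ : Om n m) = ⟨P T, T, hT, rfl⟩ := by
      apply Subtype.ext
      rw [SubMulAction.val_smul]
      change swap a b • P T = P T
      rw [smul_P, swap_map_of_mem T a b hab]
    rw [this]
    exact hwB
  have hxy : swap x y • B = B := by
    apply hfix _ ⟨P S, S, hS, rfl⟩ hwB'
    have : swap x y • (⟨P S, S, hS, rfl⟩ : Om n m) = ⟨P S, S, hS, rfl⟩ := by
      apply Subtype.ext
      rw [SubMulAction.val_smul]
      change swap x y • P S = P S
      rw [smul_P, swap_map_of_mem S x y (by simp [hxS, hyS])]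
    rw [this]
    exact hwB'
  have hcross : ∀ a b : Fin n, a ∈ T → b ∉ T → swap a b • B = B := by
    intro a b ha hb
    have hxb : x ≠ b := by rintro rfl; exact hb hxT
    have hxy' : x ≠ y := by rintro rfl; exact hyT hxT
    have hab : a ≠ b := by rintro rfl; exact hb ha
    have hay : a ≠ y := by rintro rfl; exact hyT ha
    have hs : swap a b = (swap x a * swap y b) * swap x y * (swap x a * swap y b)⁻¹ := by
      rw [← Equiv.swap_apply_apply]
      congr 1
      · rw [Perm.mul_apply, swap_apply_of_ne_of_ne hxy' hxb, swap_apply_left]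
      · rw [Perm.mul_apply, swap_apply_left, swap_apply_of_ne_of_ne hxb.symm hab.symm]
    have h1 : (swap x a * swap y b) • B = B := by
      rw [mul_smul, hTfix y b (by simp [hyT, hb]), hTfix x a (by simp [hxT, ha])]
    have h2 : (swap x a * swap y b)⁻¹ • B = B := by
      rw [inv_smul_eq_iff, h1]
    rw [hs, mul_smul, mul_smul, h2, hxy, h1]
  have hall : ∀ g : Perm (Fin n), g • B = B := by
    have hst : (stabilizer (Perm (Fin n)) B) = ⊤ := by
      rw [eq_top_iff, ← Equiv.Perm.closure_isSwap, Subgroup.closure_le]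
      rintro g ⟨a, b, _, rfl⟩
      rw [SetLike.mem_coe, mem_stabilizer_iff]
      by_cases ha : a ∈ T <;> by_cases hb : b ∈ T
      · exact hTfix a b (by simp [ha, hb])
      · exact hcross a b ha hb
      · rw [swap_comm]
        exact hcross b a hb ha
      · exact hTfix a b (by simp [ha, hb])
    intro g
    have : g ∈ stabilizer (Perm (Fin n)) B := by rw [hst]; trivial
    exact this
  rw [Set.eq_univ_iff_forall]
  intro q
  obtain ⟨g, hg⟩ := exists_smul_eq (Perm (Fin n)) (⟨P T, T, hT, rfl⟩ : Om n m) q
  rw [← hg, ← hall g]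
  exact Set.smul_mem_smul_set hwB

theorem faithful (m : ℕ) (hm : 3 ≤ m) (hn : n = 2 * m) :
    FaithfulSMul (Perm (Fin n)) (Om n m) := by
  refine ⟨?_⟩
  intro g h hgh
  have hk : ∀ k : Perm (Fin n), (∀ p : Om n m, k • p = p) → k = 1 := by
    intro k hk
    by_contra hne
    obtain ⟨x, hx⟩ : ∃ x, k x ≠ x := by
      by_contra hcon
      push Not at hcon
      exact hne (Equiv.ext hcon)
    obtain ⟨z, hz⟩ : ∃ z : Fin n, z ∉ ({x, k x} : Finset (Fin n)) := by
      by_contra hcon
      push Not at hcon
      have h1 : (Finset.univ : Finset (Fin n)) ⊆ {x, k x} := fun z _ => hcon z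
      have h2 := Finset.card_le_card h1
      rw [Finset.card_univ, Fintype.card_fin] at h2
      have h3 : ({x, k x} : Finset (Fin n)).card ≤ 2 := Finset.card_le_two
      omega
    rw [Finset.mem_insert, Finset.mem_singleton, not_or] at hz
    have hkz : k z ≠ k x := fun h => hz.1 (k.injective h)
    have hsub : ({x, z, k z} : Finset (Fin n)) ⊆ Finset.univ.erase (k x) := by
      intro t ht
      rw [Finset.mem_erase]
      refine ⟨?_, Finset.mem_univ _⟩
      simp only [Finset.mem_insert, Finset.mem_singleton] at ht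
      rcases ht with rfl | rfl | rfl
      · exact fun h => hx h.symm
      · exact hz.2
      · exact hkz
    obtain ⟨S, hS1, hS2, hS3⟩ := Finset.exists_subsuperset_card_eq hsub (n := m)
      (Finset.card_le_three.trans hm) (by
        rw [Finset.card_erase_of_mem (Finset.mem_univ _), Finset.card_univ, Fintype.card_fin]
        omega)
    have h1 := congrArg Subtype.val (hk ⟨P S, S, hS3, rfl⟩)
    rw [SubMulAction.val_smul] at h1
    change k • P S = P S at h1
    rw [smul_P] at h1
    have hkx : k x ∈ S.map k.toEmbedding :=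
      Finset.mem_map_of_mem _ (hS1 (by simp))
    have hkzS : k z ∈ S.map k.toEmbedding :=
      Finset.mem_map_of_mem _ (hS1 (by simp))
    rcases P_eq _ _ h1 with h2 | h2
    · rw [h2] at hkx
      have := hS2 hkx
      simp at this
    · rw [h2, Finset.mem_compl] at hkzS
      exact hkzS (hS1 (by simp))
  have h1 : h⁻¹ * g = 1 := by
    apply hk
    intro p
    rw [mul_smul, hgh p, inv_smul_smul]
  have h2 := congrArg (fun t => h * t) h1
  simpa using h2

theorem stab_transitive (m : ℕ) (hn : n = 2 * m) (S : Finset (Fin n)) (hS : S.card = m)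
    (x y : Fin n) : ∃ g : Perm (Fin n), g • P S = P S ∧ g x = y := by
  by_cases hxy : x ∈ S ↔ y ∈ S
  · exact ⟨swap x y, by rw [smul_P, swap_map_of_mem S x y hxy], swap_apply_left _ _⟩
  · have hSc : (Sᶜ).card = m := by
      rw [Finset.card_compl, Fintype.card_fin, hS, hn]
      omega
    obtain ⟨g, hg⟩ := exists_perm S Sᶜ (by rw [hS, hSc])
    have hgc : (Sᶜ).map g.toEmbedding = S := by
      have h1 : (Sᶜ).map g.toEmbedding = (S.map g.toEmbedding)ᶜ := by
        ext z
        simp only [Finset.mem_map_equiv, Finset.mem_compl]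
      rw [h1, hg, compl_compl]
    have hgx : (g x ∈ Sᶜ ↔ y ∈ Sᶜ) := by
      by_cases hx : x ∈ S
      · have hy : y ∉ S := fun hy => hxy ⟨fun _ => hy, fun _ => hx⟩
        have : g x ∈ Sᶜ := by
          rw [← hg]
          exact Finset.mem_map_of_mem _ hx
        exact ⟨fun _ => Finset.mem_compl.2 hy, fun _ => this⟩
      · have hy : y ∈ S := by
          by_contra hy
          exact hxy ⟨fun h => absurd h hx, fun h => absurd h hy⟩
        have : g x ∈ S := by
          rw [← hgc]
          exact Finset.mem_map_of_mem _ (Finset.mem_compl.2 hx)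
        constructor
        · intro h
          exact absurd this (Finset.mem_compl.1 h)
        · intro h
          exact absurd hy (Finset.mem_compl.1 h)
    refine ⟨swap (g x) y * g, ?_, ?_⟩
    · rw [mul_smul, smul_P, hg, smul_P, swap_map_of_mem _ _ _ hgx, P_compl]
    · rw [Perm.mul_apply, swap_apply_left]

theorem not_subset (m : ℕ) (hm : 3 ≤ m) (hn : n = 2 * m) (k : ℕ) :
    ¬ IsSubsetAction n (Om n m) k := by
  rintro ⟨f, hf⟩
  obtain ⟨S, hS⟩ : ∃ S : Finset (Fin n), S.card = m := by
    obtain ⟨S, _, hS⟩ := Finset.exists_subset_card_eq (s := (Finset.univ : Finset (Fin n)))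
      (n := m) (by rw [Finset.card_univ, Fintype.card_fin]; omega)
    exact ⟨S, hS⟩
  have hnt : ∃ q : Om n m, q ≠ ⟨P S, S, hS, rfl⟩ := by
    by_contra hcon
    push Not at hcon
    haveI := faithful (n := n) m hm hn
    have h1 : ∀ g : Perm (Fin n), g = 1 := by
      intro g
      apply FaithfulSMul.eq_of_smul_eq_smul (α := Om n m)
      intro a
      rw [hcon (g • a), hcon ((1 : Perm (Fin n)) • a)]
    have h2 := h1 (swap ⟨0, by omega⟩ ⟨1, by omega⟩)
    have h3 := congrArg (fun t : Perm (Fin n) => t ⟨0, by omega⟩) h2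
    simp only [swap_apply_left, Perm.one_apply] at h3
    have h4 := congrArg Fin.val h3
    simp at h4
  obtain ⟨q, hq⟩ := hnt
  set s := f ⟨P S, S, hS, rfl⟩ with hs
  have hstab : ∀ g : Perm (Fin n), g • P S = P S →
      (s : Finset (Fin n)).map g.toEmbedding = s := by
    intro g hg
    rw [hs, ← hf]
    congr 2
    apply Subtype.ext
    exact hg
  -- the invariant set is everything or empty
  have htriv : (∀ x, x ∈ (s : Finset (Fin n))) ∨ (∀ x, x ∉ (s : Finset (Fin n))) := by
    by_contra hcon
    rw [not_or] at hcon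
    push Not at hcon
    obtain ⟨⟨y, hy⟩, ⟨x, hx⟩⟩ := hcon
    obtain ⟨g, hg1, hg2⟩ := stab_transitive m hn S hS x y
    apply hy
    rw [← hstab g hg1, ← hg2]
    exact Finset.mem_map_of_mem _ hx
  apply hq
  apply f.injective
  rw [← hs]
  apply Subtype.ext
  have hcard : ((f q : Finset (Fin n))).card = (s : Finset (Fin n)).card := by
    rw [(f q).2, s.2]
  rcases htriv with h | h
  · have h1 : (s : Finset (Fin n)) = Finset.univ := Finset.eq_univ_iff_forall.2 h
    rw [h1, Finset.card_univ] at hcard
    rw [h1]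
    exact Finset.card_eq_iff_eq_univ _ |>.1 hcard
  · have h1 : (s : Finset (Fin n)) = ∅ := Finset.eq_empty_iff_forall_notMem.2 h
    rw [h1, Finset.card_empty, Finset.card_eq_zero] at hcard
    rw [h1, hcard]

theorem lindim_le (m : ℕ) (hm : 3 ≤ m) (hn : n = 2 * m) :
    lindim (ZMod 2) (Perm (Fin n)) (Om n m) ≤ n - 1 := by
  apply Nat.sInf_le
  refine ⟨W n, inferInstance, inferInstance, inferInstance, rep n, fun p => p.1,
    Subtype.val_injective, fun g p => rfl, ?_⟩
  have h1 := Submodule.finrank_quotient_add_finrank (cst n)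
  have h2 : Module.finrank (ZMod 2) (cst n) = 1 := by
    unfold cst
    apply finrank_span_singleton
    intro h
    have h3 := congrFun h ⟨0, by omega⟩
    simp at h3
  rw [h2, Module.finrank_pi, Fintype.card_fin] at h1
  change Module.finrank (ZMod 2) ((Fin n → ZMod 2) ⧸ cst n) = n - 1
  omega

/-- **Theorem.** For every even `n = 2 m ≥ 6` the symmetric group `S_n` has a faithful primitive
action on a finite set, not equivalent to any `k`-subset action, whose linear dimension over the
field with two elements is at most `n - 1`.  Hence there is no `n₀` such that for all `n ≥ n₀`, all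
fields and all faithful primitive actions of `S_n` that are not `k`-subset actions the linear
dimension is at least `(n² - 3 n) / 2`. -/
theorem result :
    (∀ m : ℕ, 3 ≤ m → ∃ (Ω : Type) (_ : Finite Ω) (_ : MulAction (Perm (Fin (2 * m))) Ω),
      FaithfulSMul (Perm (Fin (2 * m))) Ω ∧ IsPreprimitive (Perm (Fin (2 * m))) Ω ∧
      (∀ k, ¬ IsSubsetAction (2 * m) Ω k) ∧
      lindim (ZMod 2) (Perm (Fin (2 * m))) Ω ≤ 2 * m - 1) ∧
    ¬ ∃ n₀ : ℕ, ∀ n ≥ n₀, ∀ (F : Type) [Field F] (Ω : Type) [Finite Ω]
      [MulAction (Perm (Fin n)) Ω], FaithfulSMul (Perm (Fin n)) Ω →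
      IsPreprimitive (Perm (Fin n)) Ω → (∀ k, ¬ IsSubsetAction n Ω k) →
      ((n : ℝ) ^ 2 - 3 * n) / 2 ≤ (lindim F (Perm (Fin n)) Ω : ℝ) := by
  have hfin : ∀ n m, Finite (Om n m) := by
    intro n m
    haveI : Finite (W n) := inferInstanceAs (Finite ((Fin n → ZMod 2) ⧸ cst n))
    exact Subtype.finite
  constructor
  · intro m hm
    exact ⟨Om (2 * m) m, hfin _ _, inferInstance, faithful m hm rfl, preprimitive m rfl,
      not_subset m hm rfl, lindim_le m hm rfl⟩
  · rintro ⟨n₀, h⟩
    set m := max n₀ 3 with hm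
    have hm3 : 3 ≤ m := le_max_right _ _
    haveI : Fact (Nat.Prime 2) := ⟨Nat.prime_two⟩
    haveI := hfin (2 * m) m
    have h1 := h (2 * m) (by have := le_max_left n₀ 3; omega) (ZMod 2) (Om (2 * m) m)
      (faithful m hm3 rfl) (preprimitive m rfl) (not_subset m hm3 rfl)
    have h2 := lindim_le (n := 2 * m) m hm3 rfl
    have h3 : (lindim (ZMod 2) (Perm (Fin (2 * m))) (Om (2 * m) m) : ℝ) ≤ 2 * m - 1 := by
      have h4 : (lindim (ZMod 2) (Perm (Fin (2 * m))) (Om (2 * m) m) : ℝ) ≤
          ((2 * m - 1 : ℕ) : ℝ) := Nat.cast_le.2 h2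
      rw [Nat.cast_sub (by omega)] at h4
      push_cast at h4
      exact h4
    have h4 : (3 : ℝ) ≤ m := by exact_mod_cast hm3
    push_cast at h1
    nlinarith

end Pool.Agent.Results.MP_bfdf54_al.HalvesCharTwo
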